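import Mathlib
import Pool.Agent.TH910.LS.AllForms

/-!
# The strong Lang and Silverman bound for all forms of a power of an elliptic curve

`E : y² = x³ + a x + b` is an elliptic curve over the number field `K`, with `a`, `b` integral.  A
finite Galois extension `L` of `K` and a faithful representation `ρ` of its group by integral
matrices of size `g` define an abelian variety `A` over `K`, the form of `E ^ g` with
`A(K) = {P ∈ E(L) ^ g | ρ(σ) σ(P) = P for all σ}` (`FixedPt ρ P`).  A symmetric positive definite
integral matrix `M` with `ρ(σ)ᵀ M ρ(σ) = M` (`Polar ρ M`) is a polarization of `A` over `K`, of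
degree `g! * det M`; the corresponding canonical height relative to `K` is
`formHeight M P = chatM M P / [L : K]`.

`SubvarLe c ρ M P` is the alternative (a): there are `m < g` and an integral matrix `β` with `m`
columns, which has an integral left inverse and whose columns span a subgroup stable under `ρ`, so
that `B = β(E ^ m)` is an abelian subvariety of `A` over `K`, of degree
`m! * det (βᵀ M β) ≤ c * (g! * det M)`, and `n P = β Q` for some `1 ≤ n ≤ c` and `Q`.

`Pts L a b` is the group of points over `L`, `sht P` the height of the `x`-coordinate,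
`chat P` the canonical height, `gal σ P` the point with coordinates `σ(x)`, `σ(y)`, and
`RamPrimes K T` says that for each prime `v` in `T` there is `σ ≠ 1` in the inertia group:
`σ(z) - z ∈ v` for all integers `z`.  `logNorms T` is the sum of `log N v`, `v ∈ T`.
-/

set_option autoImplicit false

open Pool.Agent.TH910.LS NumberField IsDedekindDomain

theorem Pool.Agent.Results.MP_f5471b_nt.AllForms.result
    (K : Type) [Field K] [NumberField K] (a b : 𝓞 K)
    (hab : 4 * (a : K) ^ 3 + 27 * (b : K) ^ 2 ≠ 0) (g : ℕ) (hg : 0 < g) :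
    ∃ c₁ : ℝ, 0 < c₁ ∧ ∃ c₂ : ℕ, ∀ (L : Type) [Field L] [NumberField L] [Algebra K L]
      [IsGalois K L] [DecidableEq L], ChatLim L a b ∧
      ∀ (ρ : (L ≃ₐ[K] L) →* Matrix (Fin g) (Fin g) ℤ) (M : Matrix (Fin g) (Fin g) ℤ)
        (P : Fin g → Pts L a b) (T : Finset (HeightOneSpectrum (𝓞 L))),
        Faithful ρ → Polar ρ M → FixedPt ρ P → RamPrimes K T →
        SubvarLe c₂ ρ M P ∨
          (¬ IsOfFinAddOrder P ∧ c₁ * (1 + logNorms T) ≤ formHeight M P) := by
  obtain ⟨c₁, hc, c₂, h⟩ := all_forms a b hab g hg
  exact ⟨c₁, hc, c₂, fun L _ _ _ _ _ => ⟨chatLim a b hab L, fun ρ M P T hf hM hP hT =>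
    h L ρ M P T hf hM hP hT⟩⟩
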