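import Mathlib
import Pool.Agent.TH910.LS.VarMain

/-!
# The strong Lang and Silverman bound for forms of powers, with nearly `S`-integral `j`

`E : y² = x³ + a x + b` is an elliptic curve over a number field `K` of degree at most `D`, with
`a`, `b` integral of height at most `κ h(j)` and with `j` nearly `S`-integral (`NearInt`) of large
height.  A finite Galois extension `L` of `K` and a faithful representation `ρ` of its group by
integral matrices of size `g` define an abelian variety `A` over `K`, the form of `E ^ g` with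
`A(K) = {P ∈ E(L) ^ g | ρ(σ) σ(P) = P for all σ}` (`FixedPt ρ P`).  A symmetric positive definite
integral matrix `M` with `ρ(σ)ᵀ M ρ(σ) = M` (`Polar ρ M`) is a polarization of `A` over `K`, of
degree `g! * det M`; the corresponding absolute canonical height is `chatM M P / [L : ℚ]`.

`SubvarLe c ρ M P` is the alternative (a): there are `m < g` and an integral matrix `β` with `m`
columns, which has an integral left inverse and whose columns span a subgroup stable under `ρ`, so
that `B = β(E ^ m)` is an abelian subvariety of `A` over `K`, of degree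
`m! * det (βᵀ M β) ≤ c * (g! * det M)`, and `n P = β Q` for some `1 ≤ n ≤ c` and `Q`.

`Pts L a b` is the group of points over `L`, `sht P` the height of the `x`-coordinate,
`chat P` the canonical height, `gal σ P` the point with coordinates `σ(x)`, `σ(y)`, and
`RamPrimes K T` says that for each prime `v` in `T` there is `σ ≠ 1` in the inertia group.
`logNorms T` is the sum of `log N v`, `v ∈ T`, and `absH` is the absolute logarithmic height.
-/

set_option autoImplicit false

open Pool.Agent.TH910.LS NumberField IsDedekindDomain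

theorem Pool.Agent.Results.MP_f5471b_nt.FormsNearlyIntegralJ.result
    (D g : ℕ) (hg : 0 < g) (κ : ℝ) (hκ : 0 ≤ κ) :
    ∃ c₁ δ : ℝ, 0 < c₁ ∧ 0 < δ ∧ ∃ c₂ : ℕ, ∀ M₀ : ℕ, M₀ ≠ 0 → ∃ A : ℝ,
    ∀ (K : Type) [Field K] [NumberField K], Module.finrank ℚ K ≤ D →
    ∀ a b : 𝓞 K, 4 * (a : K) ^ 3 + 27 * (b : K) ^ 2 ≠ 0 →
      NearInt δ M₀ (jinv (a : K) b) → A < absH (jinv (a : K) b) →
      absH (a : K) + absH (b : K) ≤ κ * absH (jinv (a : K) b) →
    ∀ (L : Type) [Field L] [NumberField L] [Algebra K L] [IsGalois K L] [DecidableEq L],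
      ChatLim L a b ∧
      ∀ (ρ : (L ≃ₐ[K] L) →* Matrix (Fin g) (Fin g) ℤ) (M : Matrix (Fin g) (Fin g) ℤ)
        (P : Fin g → Pts L a b) (T : Finset (HeightOneSpectrum (𝓞 L))),
        Faithful ρ → Polar ρ M → FixedPt ρ P → RamPrimes K T →
        SubvarLe c₂ ρ M P ∨ (¬ IsOfFinAddOrder P ∧
          c₁ * (absH (jinv (a : K) b) + logNorms T / Module.finrank ℚ L) ≤
            chatM M P / Module.finrank ℚ L) := by
  obtain ⟨c₁, δ, hc, hδ, c₂, h⟩ := var_forms D g hg κ hκ
  refine ⟨c₁, δ, hc, hδ, c₂, fun M₀ hM₀ => ?_⟩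
  obtain ⟨A, h⟩ := h M₀ hM₀
  exact ⟨A, fun K _ _ hK a b hab hj hA hκ L _ _ _ _ _ => ⟨chatLim a b hab L,
    fun ρ M P T hf hM hP hT => h K hK a b hab hj hA hκ L ρ M P T hf hM hP hT⟩⟩
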