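import Pool.Agent.TH951.LS.Rel
import Pool.Agent.TH910.LS.Main

/-!
# The strong Lang–Silverman inequality for powers of elliptic curves with nearly `S`-integral `j`

For every `D` there are a bound `N` and a constant `c > 0` such that for every finite set `S` of
primes the following holds for all elliptic curves `E_i` over number fields `K` of degree at most
`D` whose `j`-invariants are (nearly) `S`-integral and have height larger than a bound depending on
`S`: for `A = ∏ E_i ^ (g_i)` with any exponents `g_i` and any polarizations given by positive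
definite integral matrices, each point of `A(K)` has a component in some `E_i ^ (g_i)` that is a
torsion point of order at most `N`, or all its components have canonical height at least `c` times
the sum of `h(j)` and the normalised logarithm of the norms of all primes of bad reduction.
-/

set_option autoImplicit false

namespace Pool.Agent.Results.MP_f5471b_nt.NearlyIntegralJPowers

open NumberField Filter Topology

/-- the absolute logarithmic Weil height -/
noncomputable def absH {K : Type} [Field K] [NumberField K] (x : K) : ℝ :=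
  Height.logHeight₁ x / Module.finrank ℚ K

/-- the curve `y² = x³ + a x + b` -/
def curve {K : Type} [Field K] (a b : K) : WeierstrassCurve K := ⟨0, 0, 0, a, b⟩

/-- its `j`-invariant -/
noncomputable def jinv {K : Type} [Field K] (a b : K) : K :=
  6912 * a ^ 3 / (4 * a ^ 3 + 27 * b ^ 2)

/-- `h` is the canonical height of the point `P`, normalised by
`h = lim 4 ^ (-n) h(x(2 ^ n P))`, with the absolute logarithmic height on the right; here
`xRep` is `(x : 1)`, and `(1 : 0)` for the point at infinity. -/
def IsCanonicalHeight {K : Type} [Field K] [NumberField K] [DecidableEq K]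
    {W : WeierstrassCurve K} (P : W.toAffine.Point) (h : ℝ) : Prop :=
  Tendsto (fun n : ℕ => Height.logHeight ((2 ^ n • P).xRep) / (4 ^ n * Module.finrank ℚ K)) atTop
    (𝓝 h)

/-- the value at `P ∈ A ^ g` of the form `∑ L i j ⟨P i, P j⟩`, where `⟨·, ·⟩` is the bilinear form
with `⟨x, x⟩ = q x` -/
noncomputable def polHeight {A : Type} [AddCommGroup A] (q : A → ℝ) {g : ℕ}
    (L : Matrix (Fin g) (Fin g) ℤ) (P : Fin g → A) : ℝ :=
  ∑ i, ∑ j, (L i j : ℝ) * ((q (P i + P j) - q (P i) - q (P j)) / 2)

/-- `j` is integral outside `M` up to the proportion `δ`: for some positive integer `b` with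
`log b ≤ δ h(j)` and some `k`, the number `b M ^ k j` is an algebraic integer. If `b = 1` then `j`
is integral outside the primes dividing `M`. -/
def NearlyIntegral {K : Type} [Field K] [NumberField K] (δ : ℝ) (M : ℕ) (j : K) : Prop :=
  ∃ b k : ℕ, 0 < b ∧ Real.log b ≤ δ * absH j ∧ IsIntegral ℤ ((b : K) * (M : K) ^ k * j)

/-- the curve has good reduction at the finite place `v` of `K`: a change of variables over `K`
gives an equation with `v`-integral coefficients whose discriminant is a unit at `v` -/
def GoodReduction {K : Type} [Field K] [NumberField K] (v : FinitePlace K)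
    (W : WeierstrassCurve K) : Prop :=
  ∃ C : WeierstrassCurve.VariableChange K, v (C • W).a₁ ≤ 1 ∧ v (C • W).a₂ ≤ 1 ∧
    v (C • W).a₃ ≤ 1 ∧ v (C • W).a₄ ≤ 1 ∧ v (C • W).a₆ ≤ 1 ∧ v (C • W).Δ = 1

/-- the logarithm of the norm of the product of the primes in `F`, divided by `[K : ℚ]` -/
noncomputable def logNorm {K : Type} [Field K] [NumberField K] (F : Finset (FinitePlace K)) : ℝ :=
  (∑ v ∈ F, Real.log (Ideal.absNorm v.maximalIdeal.asIdeal)) / Module.finrank ℚ K

/-- For every `D` there are `N`, `c > 0` and `δ > 0` such that for every integer `M ≠ 0` there is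
`A` such that the following holds for every number field `K` of degree at most `D` and all elliptic
curves `E_i : y² = x³ + a_i x + b_i` over `K` whose `j`-invariants are integral outside `M` up to
the proportion `δ` and have height larger than `A`. Let `F i` be any finite set of finite places of
`K` where `E_i` has bad reduction. The canonical heights `q i` exist, and for all `g i`, all
positive definite integral matrices `L i` of size `g i` and all `P i ∈ E_i(K) ^ (g i)`, some `P i`
is a torsion point of order at most `N`, or for all `i` the point `P i` is not a torsion point and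
its canonical height with respect to `L i` is at least `c (h(j(E_i)) + logNorm (F i))`. -/
theorem result (D : ℕ) : ∃ (N : ℕ) (c δ : ℝ), 0 < c ∧ 0 < δ ∧ ∀ M : ℕ, M ≠ 0 → ∃ A : ℝ,
    ∀ (K : Type) [Field K] [NumberField K] [DecidableEq K], Module.finrank ℚ K ≤ D →
    ∀ (r : ℕ) (a b : Fin r → K), (∀ i, 4 * a i ^ 3 + 27 * b i ^ 2 ≠ 0) →
    (∀ i, NearlyIntegral δ M (jinv (a i) (b i))) → (∀ i, A < absH (jinv (a i) (b i))) →
    ∀ F : Fin r → Finset (FinitePlace K),
      (∀ i, ∀ v ∈ F i, ¬ GoodReduction v (curve (a i) (b i))) →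
    ∃ q : ∀ i, (curve (a i) (b i)).toAffine.Point → ℝ, (∀ i P, IsCanonicalHeight P (q i P)) ∧
    ∀ (g : Fin r → ℕ) (L : ∀ i, Matrix (Fin (g i)) (Fin (g i)) ℤ),
      (∀ i, ((L i).map (Int.cast : ℤ → ℝ)).PosDef) →
    ∀ P : ∀ i, Fin (g i) → (curve (a i) (b i)).toAffine.Point,
      (∃ i, 0 < addOrderOf (P i) ∧ addOrderOf (P i) ≤ N) ∨
      ∀ i, ¬ IsOfFinAddOrder (P i) ∧
        c * (absH (jinv (a i) (b i)) + logNorm (F i)) ≤ polHeight (q i) (L i) (P i) := by
  obtain ⟨N, c, δ, hc, hδ, hfam⟩ := TH951.LS.family.{0} D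
  refine ⟨(2 * N + 1).factorial, c / 4 ^ N, δ, by positivity, hδ, fun M hM => ?_⟩
  obtain ⟨A, hA, hfam⟩ := hfam M hM
  refine ⟨A, ?_⟩
  intro K _ _ _ hK r a b hab hj hAj F hF
  have hd : (0 : ℝ) < Module.finrank ℚ K := by
    exact_mod_cast (Module.finrank_pos : 0 < Module.finrank ℚ K)
  have hlim : ∀ i, ∀ Q : (curve (a i) (b i)).toAffine.Point, Tendsto (fun n : ℕ =>
      Height.logHeight ((2 ^ n • Q).xRep) / (4 ^ n * Module.finrank ℚ K)) atTop
      (𝓝 (Pool.Agent.TH910.LS.chat (a := a i) (b := b i) Q / Module.finrank ℚ K)) := by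
    intro i Q
    have h := ((Pool.Agent.TH910.LS.chat_spec (hab i)).1 Q).div_const (Module.finrank ℚ K : ℝ)
    refine h.congr fun n => ?_
    rw [div_div]
    rfl
  refine ⟨fun i Q => Pool.Agent.TH910.LS.chat (a := a i) (b := b i) Q / Module.finrank ℚ K,
    hlim, ?_⟩
  intro g L hL P
  -- one point
  have key : ∀ i, ∀ Q : (curve (a i) (b i)).toAffine.Point,
      (∃ n : ℕ, 0 < n ∧ n ≤ 2 * N + 1 ∧ n • Q = 0) ∨
        c / 4 ^ N * (absH (jinv (a i) (b i)) + logNorm (F i)) ≤
          Pool.Agent.TH910.LS.chat (a := a i) (b := b i) Q / Module.finrank ℚ K := by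
    intro i Q
    have hell : (curve (a i) (b i)).IsElliptic := Pool.Agent.TH942.sw_ell (hab i)
    have hjj : (curve (a i) (b i)).j = jinv (a i) (b i) :=
      Pool.Agent.TH910.LS.jinv_eq (a i) (b i) hell
    obtain ⟨b', k, hb, hbδ, hint⟩ := hj i
    have hH : 0 < absH (jinv (a i) (b i)) := lt_of_le_of_lt hA (hAj i)
    have hR0 : 0 ≤ logNorm (F i) := by
      refine div_nonneg (Finset.sum_nonneg fun v _ => ?_) hd.le
      exact Real.log_natCast_nonneg _
    have hC : 0 < c * (absH (jinv (a i) (b i)) + logNorm (F i)) := by positivity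
    have hAi := hAj i
    rw [← hjj] at hint hbδ hAi hC ⊢
    have h := TH951.LS.of_family (curve (a i) (b i)) (hlim i) hC (fun Q hQ =>
      hfam K hK (curve (a i) (b i)) b' k hb hint hbδ hAi (F i) (fun v hv => hF i v hv) _
        (hlim i) Q hQ) Q
    rwa [mul_div_right_comm] at h
  by_cases htor : ∃ i, IsOfFinAddOrder (P i)
  · left
    obtain ⟨i, hi⟩ := htor
    refine ⟨i, hi.addOrderOf_pos, ?_⟩
    apply Nat.le_of_dvd (Nat.factorial_pos _)
    apply addOrderOf_dvd_of_nsmul_eq_zero
    funext k
    have hk : IsOfFinAddOrder (P i k) := by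
      obtain ⟨n, hn, h⟩ := isOfFinAddOrder_iff_nsmul_eq_zero.1 hi
      exact isOfFinAddOrder_iff_nsmul_eq_zero.2 ⟨n, hn, congrFun h k⟩
    have h0 : Pool.Agent.TH910.LS.chat (a := a i) (b := b i) (P i k) /
        Module.finrank ℚ K = 0 := by
      obtain ⟨n, hn, h⟩ := isOfFinAddOrder_iff_nsmul_eq_zero.1 hk
      exact TH951.LS.torsion_lim (curve (a i) (b i)) hn h (hlim i (P i k))
    have hH : 0 < absH (jinv (a i) (b i)) := lt_of_le_of_lt hA (hAj i)
    have hR0 : 0 ≤ logNorm (F i) := by
      refine div_nonneg (Finset.sum_nonneg fun v _ => ?_) hd.le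
      exact Real.log_natCast_nonneg _
    rcases key i (P i k) with ⟨n, hn, hnN, h⟩ | h
    · obtain ⟨m, hm⟩ := Nat.dvd_factorial hn hnN
      simp only [Pi.smul_apply, Pi.zero_apply]
      rw [hm, mul_comm, mul_nsmul', h, nsmul_zero]
    · rw [h0] at h
      have : 0 < c / 4 ^ N * (absH (jinv (a i) (b i)) + logNorm (F i)) := by positivity
      linarith
  · right
    push Not at htor
    intro i
    refine ⟨htor i, ?_⟩
    obtain ⟨Q, -, hQ, hQ2⟩ := Pool.Agent.TH910.LS.reduction (hab i) (L i) (hL i) (P i) (htor i)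
    have h1 : c / 4 ^ N * (absH (jinv (a i) (b i)) + logNorm (F i)) ≤
        Pool.Agent.TH910.LS.chat (a := a i) (b := b i) Q / Module.finrank ℚ K := by
      refine (key i Q).resolve_left ?_
      rintro ⟨n, hn, -, h⟩
      exact hQ (isOfFinAddOrder_iff_nsmul_eq_zero.2 ⟨n, hn, h⟩)
    refine h1.trans ((div_le_div_of_nonneg_right hQ2 hd.le).trans (le_of_eq ?_))
    unfold Pool.Agent.TH910.LS.chatM polHeight
    rw [Finset.sum_div]
    refine Finset.sum_congr rfl fun i' _ => ?_
    rw [Finset.sum_div]
    refine Finset.sum_congr rfl fun j' _ => ?_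
    rw [← sub_div, ← sub_div, div_right_comm, mul_div_assoc]
    rfl

end Pool.Agent.Results.MP_f5471b_nt.NearlyIntegralJPowers
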