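import Mathlib
import Pool.Agent.TH910.LS.Strong

/-!
# The strong Lang and Silverman bound for powers of elliptic curves

`SPt a b` is the group of `K`-rational points of `E : y² = x³ + a x + b`, `sht P` the height of the
`x`-coordinate (relative to `K`), `chat P` the canonical height, the limit of
`sht (2 ^ k P) / 4 ^ k`.  A symmetric positive definite integral matrix `M` of size `g` is a
polarization of `E ^ g`, of degree `g! * det M`, and `chatM M P` is the corresponding canonical
height.  `jinv a b` is the `j`-invariant, and `Ram a b S` says that `S` is a set of primes at which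
the valuation of `4 a³ + 27 b²` is not divisible by twelve.
-/

set_option autoImplicit false

open Pool.Agent.TH942 Pool.Agent.TH910.LS NumberField IsDedekindDomain Height Filter Topology

theorem Pool.Agent.Results.MP_f5471b_nt.StrongFormPowers.result
    (K : Type) [Field K] [NumberField K] [DecidableEq K] (H : ℝ) :
    ∃ c₁ : ℝ, 0 < c₁ ∧ ∃ c₂ : ℕ, ∀ a b : K, 4 * a ^ 3 + 27 * b ^ 2 ≠ 0 →
      logHeight₁ (jinv a b) ≤ H →
      (∀ P : SPt a b,
        Tendsto (fun k : ℕ => sht ((2 ^ k : ℕ) • P) / 4 ^ k) atTop (𝓝 (chat P))) ∧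
      ∀ S : Finset (HeightOneSpectrum (𝓞 K)), Ram a b S →
      ∀ (g : ℕ) (M : Matrix (Fin g) (Fin g) ℤ), (M.map (Int.cast : ℤ → ℝ)).PosDef →
      ∀ P : Fin g → SPt a b,
        -- a torsion point of bounded order, or a point of large height
        ((0 < addOrderOf P ∧ addOrderOf P ≤ c₂) ∨
          (¬ IsOfFinAddOrder P ∧
            c₁ * (1 + ∑ v ∈ S, Real.log (Ideal.absNorm v.asIdeal)) ≤ chatM M P)) ∧
        -- points with independent coordinates
        (0 < g → (∀ c : Fin g → ℤ, c ≠ 0 → ¬ IsOfFinAddOrder (∑ i, c i • P i)) →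
          (c₁ * (1 + ∑ v ∈ S, Real.log (Ideal.absNorm v.asIdeal))) ^ g * (M.det : ℝ) ≤
            chatM M P ^ g) := by
  obtain ⟨c₁, hc, c₂, h⟩ := strong (K := K) H
  exact ⟨c₁, hc, c₂, fun a b hab hj => ⟨(chat_spec hab).1, h a b hab hj⟩⟩
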